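import Pool.Agent.H94.RD.KboxCore

/-!
# MP_609556_an, module KBOX: moving compactly supported subsolution
-/

open MeasureTheory Set Filter Topology Metric

namespace Pool.Agent.H94.RD

open Pool.Agent.H91.RD

/-- truncation to `[-l, l]` -/
noncomputable def cl (l y : ℝ) : ℝ := max (-l) (min l y)

theorem cl_continuous (l : ℝ) : Continuous (cl l) := by unfold cl; fun_prop

theorem cl_abs_le {l : ℝ} (hl : 0 ≤ l) (y : ℝ) : |cl l y| ≤ l := by
  unfold cl
  rw [abs_le]
  exact ⟨le_max_left _ _, max_le (by linarith) (min_le_left _ _)⟩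

theorem cl_of_lt {l y : ℝ} (h : |y| < l) : cl l y = y := by
  have h1 := abs_lt.1 h
  unfold cl
  rw [min_eq_right h1.2.le, max_eq_right h1.1.le]

theorem cl_of_ge {l y : ℝ} (hl : 0 ≤ l) (h : ¬ |y| < l) : |cl l y| = l := by
  rw [not_lt, le_abs] at h
  unfold cl
  rcases h with h | h
  · rw [min_eq_left h, max_eq_right (by linarith), abs_of_nonneg hl]
  · rw [min_eq_right (by linarith), max_eq_left (by linarith), abs_neg, abs_of_nonneg hl]

/-- the compactly supported moving bump -/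
noncomputable def Sb {N : ℕ} (κ l : ℝ) (V x0 : E N) (τ : ℝ) (x : E N) : ℝ :=
  κ * ∏ i, (Real.exp (-(V i * (x i - x0 i - V i * τ) / 2)) *
    Real.cos (Real.pi / (2 * l) * cl l (x i - x0 i - V i * τ)))

theorem Sb_continuous {N : ℕ} (κ l : ℝ) (V x0 : E N) :
    Continuous (fun p : ℝ × E N => Sb κ l V x0 p.1 p.2) := by
  unfold Sb
  refine continuous_const.mul (continuous_finsetProd _ fun i _ => ?_)
  have h1 : Continuous fun p : ℝ × E N => p.2 i - x0 i - V i * p.1 := by fun_prop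
  refine (Real.continuous_exp.comp ?_).mul (Real.continuous_cos.comp ?_)
  · fun_prop
  · exact continuous_const.mul ((cl_continuous l).comp h1)

theorem cos_cl_nonneg {l : ℝ} (hl : 0 < l) (y : ℝ) : 0 ≤ Real.cos (Real.pi / (2 * l) * cl l y) := by
  have h := abs_le.1 (cl_abs_le hl.le y)
  have hp := Real.pi_pos
  have h2 : Real.pi / (2 * l) * l = Real.pi / 2 := by field_simp
  have h3 : 0 ≤ Real.pi / (2 * l) := by positivity
  refine Real.cos_nonneg_of_mem_Icc ⟨?_, ?_⟩
  · have := mul_le_mul_of_nonneg_left h.1 h3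
    rw [mul_neg, h2] at this
    exact this
  · have := mul_le_mul_of_nonneg_left h.2 h3
    rw [h2] at this
    exact this

theorem cos_cl_zero {l y : ℝ} (hl : 0 < l) (h : ¬ |y| < l) :
    Real.cos (Real.pi / (2 * l) * cl l y) = 0 := by
  have h1 := cl_of_ge hl.le h
  have h2 : Real.pi / (2 * l) * l = Real.pi / 2 := by field_simp
  rw [← Real.cos_abs, abs_mul, h1, abs_of_pos (by positivity), h2, Real.cos_pi_div_two]

theorem Sb_nonneg {N : ℕ} {κ l : ℝ} (hκ : 0 ≤ κ) (hl : 0 < l) (V x0 : E N) (τ : ℝ) (x : E N) :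
    0 ≤ Sb κ l V x0 τ x := by
  unfold Sb
  refine mul_nonneg hκ (Finset.prod_nonneg fun i _ => ?_)
  exact mul_nonneg (Real.exp_pos _).le (cos_cl_nonneg hl _)

/-- the open box -/
def InBox {N : ℕ} (l : ℝ) (V x0 : E N) (τ : ℝ) (x : E N) : Prop :=
  ∀ i, |x i - x0 i - V i * τ| < l

theorem Sb_out {N : ℕ} {κ l : ℝ} (hl : 0 < l) {V x0 : E N} {τ : ℝ} {x : E N}
    (h : ¬ InBox l V x0 τ x) : Sb κ l V x0 τ x = 0 := by
  unfold InBox at h
  push Not at h
  obtain ⟨i, hi⟩ := h
  unfold Sb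
  rw [Finset.prod_eq_zero (Finset.mem_univ i), mul_zero]
  rw [cos_cl_zero hl (not_lt.2 hi), mul_zero]

theorem Sb_in {N : ℕ} {κ l : ℝ} {V x0 : E N} {τ : ℝ} {x : E N}
    (h : InBox l V x0 τ x) : Sb κ l V x0 τ x = Gf κ (Real.pi / (2 * l)) V x0 τ x := by
  unfold Sb Gf
  congr 1
  refine Finset.prod_congr rfl fun i _ => ?_
  rw [cl_of_lt (h i)]
  rfl

theorem coord_le {N : ℕ} (V : E N) (i : Fin N) : |V i| ≤ ‖V‖ := by
  have := PiLp.norm_apply_le V i
  rwa [Real.norm_eq_abs] at this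

theorem Sb_le {N : ℕ} {κ l b : ℝ} (hκ : 0 ≤ κ) (hl : 0 < l) {V x0 : E N} (hV : ‖V‖ ≤ b)
    (τ : ℝ) (x : E N) : Sb κ l V x0 τ x ≤ κ * Real.exp (N * (b * l / 2)) := by
  by_cases h : InBox l V x0 τ x
  · unfold Sb
    refine mul_le_mul_of_nonneg_left ?_ hκ
    have h1 : ∀ i ∈ (Finset.univ : Finset (Fin N)),
        (Real.exp (-(V i * (x i - x0 i - V i * τ) / 2)) *
          Real.cos (Real.pi / (2 * l) * cl l (x i - x0 i - V i * τ))) ≤ Real.exp (b * l / 2) := by
      intro i _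
      have h2 : Real.exp (-(V i * (x i - x0 i - V i * τ) / 2)) ≤ Real.exp (b * l / 2) := by
        refine Real.exp_le_exp.2 ?_
        have h3 : |V i * (x i - x0 i - V i * τ)| ≤ b * l := by
          rw [abs_mul]
          exact mul_le_mul ((coord_le V i).trans hV) (h i).le (abs_nonneg _)
            ((norm_nonneg V).trans hV)
        have h4 := neg_abs_le (V i * (x i - x0 i - V i * τ))
        linarith
      calc _ ≤ Real.exp (-(V i * (x i - x0 i - V i * τ) / 2)) * 1 :=
            mul_le_mul_of_nonneg_left (Real.cos_le_one _) (Real.exp_pos _).le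
        _ = _ := mul_one _
        _ ≤ _ := h2
    have h5 := Finset.prod_le_prod
      (fun i _ => mul_nonneg (Real.exp_pos (-(V i * (x i - x0 i - V i * τ) / 2))).le
        (cos_cl_nonneg hl (x i - x0 i - V i * τ))) h1
    refine h5.trans (le_of_eq ?_)
    rw [Finset.prod_const, Finset.card_univ, Fintype.card_fin, ← Real.exp_nat_mul]
  · rw [Sb_out hl h]
    positivity

theorem inBox_isOpen {N : ℕ} (l : ℝ) (V x0 : E N) :
    IsOpen {p : ℝ × E N | InBox l V x0 p.1 p.2} := by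
  have : {p : ℝ × E N | InBox l V x0 p.1 p.2} =
      ⋂ i : Fin N, {p : ℝ × E N | |p.2 i - x0 i - V i * p.1| < l} := by
    ext p; simp [InBox]
  rw [this]
  refine isOpen_iInter_of_finite fun i => ?_
  exact isOpen_lt (by fun_prop) continuous_const

theorem Sb_eventually {N : ℕ} {κ l : ℝ} {V x0 : E N} {τ : ℝ} {x : E N}
    (h : InBox l V x0 τ x) :
    (Sb κ l V x0 τ =ᶠ[𝓝 x] Gf κ (Real.pi / (2 * l)) V x0 τ) ∧
    ((fun s => Sb κ l V x0 s x) =ᶠ[𝓝 τ] fun s => Gf κ (Real.pi / (2 * l)) V x0 s x) := by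
  constructor
  · have h1 : IsOpen {y : E N | InBox l V x0 τ y} :=
      (inBox_isOpen l V x0).preimage (by fun_prop : Continuous fun y : E N => (τ, y))
    filter_upwards [h1.mem_nhds h] with y hy using Sb_in hy
  · have h1 : IsOpen {s : ℝ | InBox l V x0 s x} :=
      (inBox_isOpen l V x0).preimage (by fun_prop : Continuous fun s : ℝ => (s, x))
    filter_upwards [h1.mem_nhds h] with y hy using Sb_in hy

theorem norm_le_of_box {N : ℕ} {l : ℝ} (hl : 0 ≤ l) {X : E N} (h : ∀ i, |X i| ≤ l) :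
    ‖X‖ ≤ l * √N + 1 := by
  have h1 : ‖X‖ ^ 2 ≤ (l * √N) ^ 2 := by
    rw [norm_sq_coord, mul_pow, Real.sq_sqrt (Nat.cast_nonneg N)]
    have h2 : ∀ i ∈ (Finset.univ : Finset (Fin N)), X i ^ 2 ≤ l ^ 2 := by
      intro i _
      rw [← sq_abs]
      exact pow_le_pow_left₀ (abs_nonneg _) (h i) 2
    have := Finset.sum_le_card_nsmul _ _ _ h2
    rw [Finset.card_univ, Fintype.card_fin, nsmul_eq_mul] at this
    linarith
  have h3 := abs_le_of_sq_le_sq' h1 (by positivity)
  linarith [h3.2]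

theorem kbox (hMP : T_MP0) : T_KBOX := by
  intro N f K m b hf hfp hm hlow hb hbm
  have hfc : ∀ s, 0 ≤ f s := by
    intro s
    by_cases h : s ∈ Icc (0 : ℝ) 1
    · rcases eq_or_lt_of_le h.1 with h0 | h0
      · rw [← h0, hf.f0]
      · rcases eq_or_lt_of_le h.2 with h1 | h1
        · rw [h1, hf.f1]
        · exact (hfp s ⟨h0, h1⟩).le
    · rw [hf.out s h]
  set ε : ℝ := (m - b ^ 2 / 4) / 2 with hε
  have hεpos : 0 < ε := by rw [hε]; linarith
  obtain ⟨s1, hs1, hs1f⟩ := hlow ε hεpos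
  set l : ℝ := 1 + N * Real.pi ^ 2 / (4 * ε) with hl
  have hl1 : 1 ≤ l := by
    rw [hl]
    have : 0 ≤ N * Real.pi ^ 2 / (4 * ε) := by positivity
    linarith
  have hl0 : 0 < l := by linarith
  have hlam : N * (Real.pi / (2 * l)) ^ 2 ≤ ε := by
    have h1 : N * Real.pi ^ 2 / (4 * ε) ≤ l := by rw [hl]; linarith
    have h2 : N * Real.pi ^ 2 ≤ l * (4 * ε) := by rwa [div_le_iff₀ (by positivity)] at h1
    have h3 : (N : ℝ) * (Real.pi / (2 * l)) ^ 2 = N * Real.pi ^ 2 / (4 * l ^ 2) := by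
      field_simp; ring
    rw [h3, div_le_iff₀ (by positivity)]
    have h4 : l * (4 * ε) ≤ l * l * (4 * ε) := by
      have : l ≤ l * l := by nlinarith
      exact mul_le_mul_of_nonneg_right this (by positivity)
    nlinarith
  refine ⟨l * √N + 1, by positivity, fun δ hδ => ?_⟩
  set M : ℝ := Real.exp (N * (b * l / 2)) with hM
  have hM0 : 0 < M := Real.exp_pos _
  set q : ℝ := min (min s1 (1 / 2)) δ with hq
  have hq0 : 0 < q := by rw [hq]; positivity
  set κ : ℝ := q / M with hκ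
  have hκ0 : 0 < κ := by positivity
  have hκM : κ * M = q := by rw [hκ]; field_simp
  have hqs : q ≤ s1 := (min_le_left _ _).trans (min_le_left _ _)
  have hq1 : q ≤ 1 := ((min_le_left _ _).trans (min_le_right _ _)).trans (by norm_num)
  have hqδ : q ≤ δ := min_le_right _ _
  have hM1 : 1 ≤ M := by
    rw [hM]; exact Real.one_le_exp (by positivity)
  have hκq : κ ≤ q := by
    rw [← hκM]; exact le_mul_of_one_le_right hκ0.le hM1
  refine ⟨κ, hκ0, ?_⟩
  intro U u hu t0 ht0 x0 hball s hs y hy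
  rcases eq_or_lt_of_le hs with h0 | hs0
  · -- s = 0
    have hy0 : y = x0 := by
      rw [← h0, mul_zero] at hy
      exact (dist_le_zero.1 hy).symm
    rw [← h0, add_zero, hy0]
    exact (hκq.trans hqδ).trans (hball x0 (mem_closedBall_self (by positivity)))
  -- s > 0
  set V : E N := s⁻¹ • (y - x0) with hV
  have hVn : ‖V‖ ≤ b := by
    rw [hV, norm_smul, norm_inv, Real.norm_eq_abs, abs_of_pos hs0, ← dist_eq_norm, dist_comm,
      inv_mul_le_iff₀ hs0]
    linarith [hy, mul_comm b s]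
  have hu0 : ∀ t > 0, ∀ x, 0 ≤ u t x := fun t ht x => hu.nonneg ht x
  have hmain := hMP N K 0 s 1 (fun τ x => u (t0 + τ) x - Sb κ l V x0 τ x) hf.K0.le hs0 ?_ ?_ ?_ ?_ s
    ⟨hs0.le, le_rfl⟩ y
  · have h1 : Sb κ l V x0 s y = κ := by
      have hX : ∀ i, y i - x0 i - V i * s = 0 := by
        intro i
        have : V i = s⁻¹ * (y i - x0 i) := by
          rw [hV]; simp
        rw [this]
        field_simp
        ring
      unfold Sb
      rw [Finset.prod_eq_one, mul_one]
      intro i _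
      rw [hX i]
      have : cl l 0 = 0 := cl_of_lt (by simpa using hl0)
      rw [this]; simp
    rw [h1] at hmain
    linarith
  · -- continuity
    have h1 : ContinuousOn (fun p : ℝ × E N => u (t0 + p.1) p.2) (Icc 0 s ×ˢ univ) := by
      have h2 : ContinuousOn (fun p : ℝ × E N => (t0 + p.1, p.2)) (Icc 0 s ×ˢ univ) := by fun_prop
      refine hu.sol.cont.comp h2 ?_
      rintro ⟨τ, x⟩ ⟨hτ, _⟩
      have : 0 ≤ τ := hτ.1
      exact ⟨by simp only [mem_Ioi]; linarith, mem_univ _⟩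
    exact h1.sub (Sb_continuous κ l V x0).continuousOn
  · -- lower bound
    intro τ hτ x
    have h1 := hu0 (t0 + τ) (by linarith [hτ.1]) x
    have h2 := Sb_le hκ0.le hl0 (x0 := x0) hVn τ x
    rw [← hM, hκM] at h2
    linarith
  · -- the differential inequality
    intro τ hτ x hz
    have htτ : 0 < t0 + τ := by linarith [hτ.1]
    have h1 := hu0 (t0 + τ) htτ x
    have hSpos : 0 < Sb κ l V x0 τ x := by linarith
    have hbox : InBox l V x0 τ x := by
      by_contra h
      rw [Sb_out hl0 h] at hSpos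
      exact lt_irrefl _ hSpos
    obtain ⟨he1, he2⟩ := Sb_eventually (κ := κ) hbox
    have hSG := Sb_in (κ := κ) hbox
    have hu2 : ContDiffAt ℝ 2 (u (t0 + τ)) x := (hu.sol.c2 _ htτ).contDiffAt
    have hG2 : ContDiffAt ℝ 2 (Gf κ (Real.pi / (2 * l)) V x0 τ) x :=
      (Gf_contDiff _ _ _ _ _).contDiffAt
    have hS2 : ContDiffAt ℝ 2 (Sb κ l V x0 τ) x := hG2.congr_of_eventuallyEq he1
    have hut : HasDerivAt (fun s' => u (t0 + s') x) (deriv (fun s' => u s' x) (t0 + τ)) τ :=
      (hu.sol.dt _ htτ x).hasDerivAt.comp_const_add t0 τ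
    have hGt := Gf_time κ (Real.pi / (2 * l)) V x0 τ x
    have hSt := hGt.congr_of_eventuallyEq he2
    have hzt := hut.fun_sub hSt
    refine ⟨hu2.sub hS2, hzt.differentiableAt, ?_⟩
    have hlapS : Laplacian.laplacian (Sb κ l V x0 τ) x =
        Laplacian.laplacian (Gf κ (Real.pi / (2 * l)) V x0 τ) x :=
      (InnerProductSpace.laplacian_congr_nhds he1).self_of_nhds
    have hlapz : Laplacian.laplacian (fun x => u (t0 + τ) x - Sb κ l V x0 τ x) x =
        Laplacian.laplacian (u (t0 + τ)) x - Laplacian.laplacian (Sb κ l V x0 τ) x :=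
      hu2.laplacian_sub hS2
    have heq := Gf_eq κ (Real.pi / (2 * l)) V x0 τ x
    rw [hGt.deriv] at heq
    rw [hzt.deriv, hlapz, hlapS, hu.sol.eqn _ htτ x]
    rw [← hSG] at heq
    -- f(u) - f(S) ≥ K (u - S)
    have hSle : Sb κ l V x0 τ x ≤ q := by
      have h2 := Sb_le hκ0.le hl0 (x0 := x0) hVn τ x
      rwa [← hM, hκM] at h2
    have hfS : (m - ε) * Sb κ l V x0 τ x ≤ f (Sb κ l V x0 τ x) :=
      hs1f _ ⟨hSpos.le, hSle.trans hqs⟩
    have hcoef : ‖V‖ ^ 2 / 4 + N * (Real.pi / (2 * l)) ^ 2 ≤ m - ε := by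
      have h3 : ‖V‖ ^ 2 ≤ b ^ 2 := pow_le_pow_left₀ (norm_nonneg V) hVn 2
      rw [hε]
      rw [hε] at hlam
      linarith
    have h4 := mul_le_mul_of_nonneg_right hcoef hSpos.le
    have h5 := hf.lip (u (t0 + τ) x) (Sb κ l V x0 τ x)
    rw [abs_of_neg (show u (t0 + τ) x - Sb κ l V x0 τ x < 0 by linarith)] at h5
    have h6 := neg_abs_le (f (u (t0 + τ) x) - f (Sb κ l V x0 τ x))
    linarith
  · -- initial time
    intro x
    simp only [add_zero]
    by_cases h : InBox l V x0 0 x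
    · have h2 := Sb_le hκ0.le hl0 (x0 := x0) hVn 0 x
      rw [← hM, hκM] at h2
      have h3 : x ∈ closedBall x0 (l * √N + 1) := by
        rw [mem_closedBall, dist_eq_norm]
        refine norm_le_of_box hl0.le fun i => ?_
        have := h i
        rw [mul_zero, sub_zero] at this
        simpa using this.le
      have h4 := hball x h3
      linarith
    · rw [Sb_out hl0 h, sub_zero]
      exact hu0 t0 ht0 x

end Pool.Agent.H94.RD
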