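import Pool.Agent.H82.RD.Targets
import Pool.Agent.H82.RD.Basic

/-!
# ZTH: translations preserve dimension and Hilbert function
-/

set_option autoImplicit false

open MvPolynomial

namespace Pool.Agent.H94.RD

open Pool.Agent.H82.RD

variable {k : Type} [Field k] {u : ℕ}

/-- the isomorphism of the residue rings -/
private theorem exists_equiv (w : Fin u → k) {y : k} (hy : y ≠ 0) (p : Ideal (PR k u)) :
    ∃ e : (PR k u ⧸ p.comap (tr w y)) ≃ₐ[k] (PR k u ⧸ p), ∀ f : PR k u,
      e (Ideal.Quotient.mk (p.comap (tr w y)) f) = Ideal.Quotient.mk p (tr w y f) := by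
  have hb := tr_bijective w hy
  have h1 : Function.Bijective
      (Ideal.quotientMapₐ p (tr w y) (le_refl (p.comap (tr w y)))) := by
    constructor
    · exact Ideal.quotientMap_injective (f := (tr w y : PR k u →+* PR k u))
    · intro x
      obtain ⟨z, rfl⟩ := Ideal.Quotient.mk_surjective x
      obtain ⟨g, rfl⟩ := hb.2 z
      exact ⟨Ideal.Quotient.mk _ g, rfl⟩
  exact ⟨AlgEquiv.ofBijective _ h1, fun f => rfl⟩

/-- the translation maps the polynomials of bounded degree onto themselves -/
private theorem map_VV (hZTV : T_ZTV) (w : Fin u → k) {y : k} (hy : y ≠ 0) (a b : ℕ) :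
    (VV k u a b).map (tr w y).toLinearMap = VV k u a b := by
  apply le_antisymm
  · rintro _ ⟨f, hf, rfl⟩
    exact hZTV k u a b w y f hf
  · intro f hf
    refine ⟨tr (-w) y⁻¹ f, hZTV k u a b (-w) y⁻¹ f hf, ?_⟩
    change tr w y (tr (-w) y⁻¹ f) = f
    rw [tr_tr, add_neg_cancel, mul_inv_cancel₀ hy, tr_id]

theorem pf_ZTH (hZTV : T_ZTV) : T_ZTH := by
  intro k _ u A B w y p hy
  obtain ⟨e, he⟩ := exists_equiv w hy p
  refine ⟨?_, fun S => ?_⟩
  · unfold dm
    rw [e.trdeg_eq]
  · unfold hf
    have h1 : ((VV k u (A * S) (B * S)).map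
        (Ideal.Quotient.mkₐ k (p.comap (tr w y))).toLinearMap).map
          (e.toLinearEquiv : _ →ₗ[k] _) =
        (VV k u (A * S) (B * S)).map (Ideal.Quotient.mkₐ k p).toLinearMap := by
      rw [← Submodule.map_comp]
      have h2 : (e.toLinearEquiv : _ →ₗ[k] _) ∘ₗ
          (Ideal.Quotient.mkₐ k (p.comap (tr w y))).toLinearMap =
          (Ideal.Quotient.mkₐ k p).toLinearMap ∘ₗ (tr w y).toLinearMap := by
        apply LinearMap.ext
        intro f
        exact he f
      rw [h2, Submodule.map_comp, map_VV hZTV w hy]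
    rw [← h1]
    exact (LinearEquiv.finrank_map_eq e.toLinearEquiv _).symm

end Pool.Agent.H94.RD
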