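import Pool.Agent.H91.RD.Basic

/-!
# MP_609556_an, module KBOX: the explicit product function
-/

open MeasureTheory Set Filter Topology Metric

namespace Pool.Agent.H94.RD

open Pool.Agent.H91.RD

/-- one variable factor -/
noncomputable def qf (v a y : ℝ) : ℝ := Real.exp (-(v * y / 2)) * Real.cos (a * y)

/-- its derivative -/
noncomputable def qf1 (v a y : ℝ) : ℝ :=
  Real.exp (-(v * y / 2)) * (-(v / 2) * Real.cos (a * y) - a * Real.sin (a * y))

/-- its second derivative -/
noncomputable def qf2 (v a y : ℝ) : ℝ :=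
  Real.exp (-(v * y / 2)) *
    (v ^ 2 / 4 * Real.cos (a * y) + v * a * Real.sin (a * y) - a ^ 2 * Real.cos (a * y))

theorem qf_hasDerivAt (v a y : ℝ) : HasDerivAt (qf v a) (qf1 v a y) y := by
  have h1 : HasDerivAt (fun y : ℝ => -(v * y / 2)) (-(v / 2)) y := by
    have := (((hasDerivAt_id y).const_mul v).div_const 2).fun_neg
    simpa using this
  have h2 : HasDerivAt (fun y : ℝ => a * y) a y := by
    simpa using (hasDerivAt_id y).const_mul a
  have h3 := h1.exp.mul h2.cos
  refine (h3.congr_deriv ?_)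
  unfold qf1; ring

theorem qf1_hasDerivAt (v a y : ℝ) : HasDerivAt (qf1 v a) (qf2 v a y) y := by
  have h1 : HasDerivAt (fun y : ℝ => -(v * y / 2)) (-(v / 2)) y := by
    have := (((hasDerivAt_id y).const_mul v).div_const 2).fun_neg
    simpa using this
  have h2 : HasDerivAt (fun y : ℝ => a * y) a y := by
    simpa using (hasDerivAt_id y).const_mul a
  have h3 := h1.exp.mul ((h2.cos.const_mul (-(v / 2))).sub (h2.sin.const_mul a))
  refine (h3.congr_deriv ?_)
  simp only [Pi.sub_apply]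
  unfold qf2; ring

theorem qf_contDiff (v a : ℝ) : ContDiff ℝ 2 (qf v a) := by
  unfold qf; fun_prop

/-- second directional derivative -/
theorem iter2_dir {N : ℕ} {g : E N → ℝ} (hg : ContDiff ℝ 2 g) (x v : E N) :
    iteratedFDeriv ℝ 2 g x ![v, v] = deriv (deriv (fun s : ℝ => g (x + s • v))) 0 := by
  have hline : ∀ s : ℝ, HasDerivAt (fun s : ℝ => x + s • v) v s := by
    intro s
    have := ((hasDerivAt_id s).smul_const v).const_add x
    simpa using this
  have h1 : deriv (fun s : ℝ => g (x + s • v)) = fun s => fderiv ℝ g (x + s • v) v := by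
    funext s
    have hd : HasFDerivAt g (fderiv ℝ g (x + s • v)) (x + s • v) :=
      (hg.differentiable (by norm_num) _).hasFDerivAt
    exact (hd.comp_hasDerivAt s (hline s)).deriv
  rw [h1, iteratedFDeriv_two_apply]
  have h2 : ContDiff ℝ 1 (fderiv ℝ g) := hg.fderiv_right (by norm_num)
  have hd2 : HasFDerivAt (fderiv ℝ g) (fderiv ℝ (fderiv ℝ g) x) (x + (0 : ℝ) • v) := by
    rw [zero_smul, add_zero]
    exact (h2.differentiable (by norm_num) _).hasFDerivAt
  have h3 : HasDerivAt (fun s : ℝ => fderiv ℝ g (x + s • v)) (fderiv ℝ (fderiv ℝ g) x v) 0 :=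
    hd2.comp_hasDerivAt (0 : ℝ) (hline 0)
  have h4 : HasDerivAt (fun s : ℝ => fderiv ℝ g (x + s • v) v) (fderiv ℝ (fderiv ℝ g) x v v) 0 := by
    have := h3.clm_apply (hasDerivAt_const (0 : ℝ) v)
    simpa using this
  rw [h4.deriv]
  simp

/-- the product function -/
noncomputable def Gf {N : ℕ} (κ a : ℝ) (V x0 : E N) (τ : ℝ) (x : E N) : ℝ :=
  κ * ∏ i, qf (V i) a (x i - x0 i - V i * τ)

theorem Gf_contDiff {N : ℕ} (κ a : ℝ) (V x0 : E N) (τ : ℝ) : ContDiff ℝ 2 (Gf κ a V x0 τ) := by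
  unfold Gf
  refine contDiff_const.mul (contDiff_prod fun i _ => ?_)
  refine (qf_contDiff _ _).comp ?_
  fun_prop

theorem Gf_time {N : ℕ} (κ a : ℝ) (V x0 : E N) (τ : ℝ) (x : E N) :
    HasDerivAt (fun s => Gf κ a V x0 s x)
      (κ * ∑ i, (∏ j ∈ Finset.univ.erase i, qf (V j) a (x j - x0 j - V j * τ)) *
        (qf1 (V i) a (x i - x0 i - V i * τ) * (-V i))) τ := by
  unfold Gf
  refine HasDerivAt.const_mul κ ?_
  have h : ∀ i ∈ (Finset.univ : Finset (Fin N)),
      HasDerivAt (fun s => qf (V i) a (x i - x0 i - V i * s))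
        (qf1 (V i) a (x i - x0 i - V i * τ) * (-V i)) τ := by
    intro i _
    have h1 : HasDerivAt (fun s : ℝ => x i - x0 i - V i * s) (-V i) τ := by
      have := ((hasDerivAt_id τ).const_mul (V i)).const_sub (x i - x0 i)
      simpa using this
    exact (qf_hasDerivAt (V i) a _).comp τ h1
  have := HasDerivAt.fun_finsetProd h
  simpa [smul_eq_mul] using this

theorem Gf_dir {N : ℕ} (κ a : ℝ) (V x0 : E N) (τ : ℝ) (x : E N) (i : Fin N) :
    iteratedFDeriv ℝ 2 (Gf κ a V x0 τ) x
        ![EuclideanSpace.single i (1 : ℝ), EuclideanSpace.single i (1 : ℝ)] =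
      κ * ((∏ j ∈ Finset.univ.erase i, qf (V j) a (x j - x0 j - V j * τ)) *
        qf2 (V i) a (x i - x0 i - V i * τ)) := by
  rw [iter2_dir (Gf_contDiff κ a V x0 τ)]
  have h0 : (fun s : ℝ => Gf κ a V x0 τ (x + s • EuclideanSpace.single i (1 : ℝ))) =
      fun s => κ * ((∏ j ∈ Finset.univ.erase i, qf (V j) a (x j - x0 j - V j * τ)) *
        qf (V i) a (x i + s - x0 i - V i * τ)) := by
    funext s
    unfold Gf
    rw [← Finset.prod_erase_mul _ _ (Finset.mem_univ i)]
    congr 2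
    · refine Finset.prod_congr rfl fun j hj => ?_
      have hji : j ≠ i := (Finset.mem_erase.1 hj).1
      simp [hji]
    · simp
  have hlin : ∀ s : ℝ, HasDerivAt (fun s : ℝ => x i + s - x0 i - V i * τ) 1 s := by
    intro s
    have := (((hasDerivAt_id s).const_add (x i)).sub_const (x0 i)).sub_const (V i * τ)
    simpa using this
  have h1 : deriv (fun s : ℝ => κ * ((∏ j ∈ Finset.univ.erase i, qf (V j) a (x j - x0 j - V j * τ)) *
        qf (V i) a (x i + s - x0 i - V i * τ))) =
      fun s => κ * ((∏ j ∈ Finset.univ.erase i, qf (V j) a (x j - x0 j - V j * τ)) *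
        qf1 (V i) a (x i + s - x0 i - V i * τ)) := by
    funext s
    have h := (qf_hasDerivAt (V i) a (x i + s - x0 i - V i * τ)).comp s (hlin s)
    rw [mul_one] at h
    exact ((h.const_mul _).const_mul κ).deriv
  rw [h0, h1]
  have h := (qf1_hasDerivAt (V i) a (x i + 0 - x0 i - V i * τ)).comp (0 : ℝ) (hlin 0)
  rw [mul_one] at h
  have h2 := ((h.const_mul (∏ j ∈ Finset.univ.erase i, qf (V j) a (x j - x0 j - V j * τ))).const_mul
    κ).deriv
  refine Eq.trans ?_ (h2.trans ?_)
  · rfl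
  · rw [add_zero]

theorem norm_sq_coord {N : ℕ} (V : E N) : ‖V‖ ^ 2 = ∑ i, V i ^ 2 := by
  rw [EuclideanSpace.norm_sq_eq]
  refine Finset.sum_congr rfl fun i _ => ?_
  rw [Real.norm_eq_abs, sq_abs]

/-- the equation for the product function -/
theorem Gf_eq {N : ℕ} (κ a : ℝ) (V x0 : E N) (τ : ℝ) (x : E N) :
    deriv (fun s => Gf κ a V x0 s x) τ - Laplacian.laplacian (Gf κ a V x0 τ) x =
      (‖V‖ ^ 2 / 4 + N * a ^ 2) * Gf κ a V x0 τ x := by
  rw [(Gf_time κ a V x0 τ x).deriv,
    InnerProductSpace.laplacian_eq_iteratedFDeriv_orthonormalBasis _ (EuclideanSpace.basisFun (Fin N) ℝ)]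
  simp only [EuclideanSpace.basisFun_apply, Gf_dir]
  rw [← Finset.mul_sum, ← mul_sub, ← Finset.sum_sub_distrib, norm_sq_coord]
  have h : ∀ i ∈ (Finset.univ : Finset (Fin N)),
      (∏ j ∈ Finset.univ.erase i, qf (V j) a (x j - x0 j - V j * τ)) *
        (qf1 (V i) a (x i - x0 i - V i * τ) * (-V i)) -
      (∏ j ∈ Finset.univ.erase i, qf (V j) a (x j - x0 j - V j * τ)) *
        qf2 (V i) a (x i - x0 i - V i * τ) =
      (V i ^ 2 / 4 + a ^ 2) * ∏ j, qf (V j) a (x j - x0 j - V j * τ) := by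
    intro i _
    rw [← Finset.prod_erase_mul _ _ (Finset.mem_univ i)]
    unfold qf1 qf2
    rw [show qf (V i) a (x i - x0 i - V i * τ) = Real.exp (-(V i * (x i - x0 i - V i * τ) / 2)) *
      Real.cos (a * (x i - x0 i - V i * τ)) from rfl]
    ring
  rw [Finset.sum_congr rfl h, ← Finset.sum_mul, Finset.sum_add_distrib, Finset.sum_const,
    Finset.card_univ, Fintype.card_fin, nsmul_eq_mul, ← Finset.sum_div]
  unfold Gf
  ring

end Pool.Agent.H94.RD
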